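import Pool.Agent.W187.UR.Rot
import Pool.Agent.W189.LC.Refine

/-! The rotated Mittag-Leffler mean of the logarithm of an Euler product: only the order at the
central point matters. -/

set_option autoImplicit false

namespace Pool.Agent.W187.UR

open Complex MeasureTheory Filter Topology Set
open scoped Interval
open Pool.Agent.W189.ML

variable {ι : Type} {lam : ι → ℝ} {c : ι → ℝ} {G : ℂ → ℂ}

theorem abs_log_le {δ D t : ℝ} (hδ : 0 < δ) (h1 : δ ≤ t) (h2 : t ≤ D) :
    |Real.log t| ≤ |Real.log δ| + |Real.log D| := by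
  have h3 := Real.log_le_log hδ h1
  have h4 := Real.log_le_log (hδ.trans_le h1) h2
  rw [abs_le]
  have h5 := neg_abs_le (Real.log δ)
  have h6 := le_abs_self (Real.log D)
  have h7 := abs_nonneg (Real.log δ)
  have h8 := abs_nonneg (Real.log D)
  constructor <;> linarith

set_option maxHeartbeats 1000000 in
/-- **Main abstract theorem** for the rotated means. -/
theorem rot_main [Countable ι] (D : SData lam c G) {γ : ℝ} (hγ : Real.pi / 2 < γ) (m : ℤ)
    (L : ℂ → ℂ) {η B : ℝ} (hη : 0 < η) (hB : 0 ≤ B)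
    (hLd : ∀ w : ℂ, 0 < w.re → w.re ≤ 2 → -η ≤ w.im → w.im < 0 → DifferentiableAt ℂ L w)
    (hLb : ∀ w : ℂ, 0 < w.re → w.re ≤ 2 → -η ≤ w.im → w.im < 0 →
      ‖L w - m * log w‖ ≤ B * (1 + ‖w‖ * (1 + |Real.log (-w.im)|)))
    (hL2 : ∀ w : ℂ, w.re = 2 → -η ≤ w.im → w.im < 0 → G w - ser lam c w = L w) :
    ∃ C T₀ : ℝ, ∀ T ≥ T₀, |rmean lam c γ T - m * Real.log T| ≤ C := by
  obtain ⟨CG, hCG⟩ := D.Gb
  have hpi := Real.pi_pos
  have hpi3 := Real.pi_gt_three
  have hpi4 := Real.pi_lt_four
  set θ : ℝ := (Real.pi / 2 + min γ Real.pi) / 2 with hθ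
  have hmin1 : Real.pi / 2 < min γ Real.pi := lt_min hγ (by linarith)
  have hθ1 : Real.pi / 2 < θ := by rw [hθ]; linarith
  have hθ2 : θ < γ := by
    have := min_le_left γ Real.pi
    rw [hθ]; linarith
  have hθ3 : θ ≤ Real.pi := by
    have := min_le_right γ Real.pi
    rw [hθ]; linarith
  set κ : ℝ := -Real.cos θ with hκ
  have hκ0 : 0 < κ := by
    have := Real.cos_neg_of_pi_div_two_lt_of_lt hθ1 (by linarith)
    rw [hκ]; linarith
  have hκ1 : κ ≤ 1 := by
    have := Real.neg_one_le_cos θ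
    rw [hκ]; linarith
  set δ : ℝ := γ - θ with hδ
  have hδ0 : 0 < δ := by rw [hδ]; linarith
  set a : ℝ := 1 + γ with ha
  have hγ0 : 0 < γ := by linarith
  have ha1 : 1 ≤ a := by rw [ha]; linarith
  set Dd : ℝ := |Real.log δ| + |Real.log (γ + Real.pi)| with hDd
  have hDd0 : 0 ≤ Dd := by positivity
  set S2 : ℝ := ∑' i, |c i| * Real.exp (-(2 * lam i)) with hS2
  have hS20 : 0 ≤ S2 := tsum_nonneg fun i => by positivity
  set A : ℝ := |CG| + B * (11 + 5 * Dd) + 7 * |(m : ℝ)| with hA
  have hA0 : 0 ≤ A := by positivity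
  refine ⟨(Real.exp (Real.exp a) * (A * a) * (2 * Real.pi) + A * (2 / κ ^ 2) + A * (2 / κ ^ 2)) +
    |(m : ℝ)| * (2 / κ ^ 2) + S2 + S2,
    (Real.pi + γ) / η + a + 1, fun T hT => ?_⟩
  have hq : 0 < (Real.pi + γ) / η := by positivity
  have hT1 : 1 ≤ T := by linarith
  have hTa : a ≤ T := by linarith
  have hT0 : 0 < T := by linarith
  have hTη : (Real.pi + γ) / T ≤ η := by
    rw [div_le_iff₀ hT0, mul_comm, ← div_le_iff₀ hη]; linarith
  set b : ℝ := 2 * T with hb
  have hab : a ≤ b := by linarith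
  have hb0 : 0 ≤ b := by linarith
  have hTc : (T : ℂ) ≠ 0 := by exact_mod_cast hT0.ne'
  set w : ℂ → ℂ := fun z => (z - γ * I) / T with hw
  have hwre : ∀ z : ℂ, (w z).re = z.re / T := fun z => by rw [hw]; simp
  have hwim : ∀ z : ℂ, (w z).im = (z.im - γ) / T := fun z => by rw [hw]; simp
  have hwd : Differentiable ℂ w := by rw [hw]; fun_prop
  -- the contour integral
  obtain ⟨E1, E2⟩ := cmean_eq (γ := γ) D hT1 hb.symm.le
  have hre2 : ∀ z ∈ HS b, 2 ≤ (w z).re := by
    intro z hz
    rw [hwre, le_div_iff₀ hT0]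
    exact hz.1
  have hsb : ∀ z ∈ HS b, ‖ser lam c (w z)‖ ≤ S2 := fun z hz => D.ser_le (hre2 z hz)
  have E3 : ‖∫ x in Ioi b, rho (fun z => ser lam c (w z)) x‖ ≤ S2 := by
    have := norm_rays_le (Φ := fun z => ser lam c (w z)) hb0 hS20 le_rfl (s := Ioi b)
      (fun x hx => by have := hsb _ (up_mem (le_of_lt hx)); linarith)
      (fun x hx => by have := hsb _ (down_mem (le_of_lt hx)); linarith) subset_rfl measurableSet_Ioi
    linarith
  -- the vertical part
  have admS : Adm b (fun z : ℂ => ser lam c (w z)) := by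
    refine ⟨D.ser_cont.comp hwd.continuous.continuousOn hre2, S2, 0, hS20, le_rfl,
      fun z hz => ?_⟩
    have := hsb z hz
    linarith
  have hii := admS.vint
  have hsub1 : IntervalIntegrable (fun y : ℝ => K (b + y * I) * ser lam c (w (b + y * I))) volume
      (-Real.pi) θ := hii.mono_set (by
        rw [uIcc_of_le (by linarith), uIcc_of_le (by linarith)]
        exact Icc_subset_Icc le_rfl hθ3)
  have hsub2 : IntervalIntegrable (fun y : ℝ => K (b + y * I) * ser lam c (w (b + y * I))) volume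
      θ Real.pi := hii.mono_set (by
        rw [uIcc_of_le (by linarith), uIcc_of_le (by linarith)]
        exact Icc_subset_Icc (by linarith) le_rfl)
  have E4 := intervalIntegral.integral_add_adjacent_intervals hsub1 hsub2
  have E5 : ‖∫ y in θ..Real.pi, K (b + y * I) * ser lam c (w (b + y * I))‖ ≤
      S2 * |Real.pi - θ| := by
    refine intervalIntegral.norm_integral_le_of_norm_le_const fun y hy => ?_
    rw [uIoc_of_le hθ3] at hy
    rw [norm_mul, norm_K]
    have hc : Real.cos y ≤ 0 := Real.cos_nonpos_of_pi_div_two_le_of_le (by linarith [hy.1])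
      (by linarith [hy.2])
    have h3 : Real.exp (Real.exp b * Real.cos y) ≤ 1 := Real.exp_le_one_iff.2 (by
      nlinarith [Real.exp_pos b])
    have h4 := hsb (b + y * I) (vert_mem (by linarith [hy.1]) hy.2)
    calc Real.exp (Real.exp b * Real.cos y) * ‖ser lam c (w (b + y * I))‖ ≤ 1 * S2 := by gcongr
      _ = S2 := one_mul _
  -- the integrand on the left part
  set Ψ : ℂ → ℂ := fun z => G (w z) - (L (w z) - m * log (w z)) - m * log (z - γ * I) with hΨ
  have hlogw : ∀ z : ℂ, 0 < z.re → log (w z) = log (z - γ * I) - Real.log T := by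
    intro z hz
    have h1 : w z = ((T⁻¹ : ℝ) : ℂ) * (z - γ * I) := by
      rw [hw]
      push_cast
      field_simp
    have h2 : z - γ * I ≠ 0 := by
      intro h
      have := congrArg Complex.re h
      simp at this
      linarith
    rw [h1, Complex.log_ofReal_mul (by positivity) h2, Real.log_inv]
    push_cast
    ring
  have hser : ∀ y ∈ Icc (-Real.pi) θ, ser lam c (w (b + y * I)) =
      Ψ (b + y * I) + m * Real.log T := by
    intro y hy
    have h1 : (w (b + y * I)).re = 2 := by
      rw [hwre, hb]; simp; field_simp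
    have h2 : (w (b + y * I)).im = (y - γ) / T := by
      rw [hwim]; simp
    have h3 : -η ≤ (w (b + y * I)).im := by
      rw [h2]
      have : -((Real.pi + γ) / T) ≤ (y - γ) / T := by
        rw [← neg_div]
        exact div_le_div_of_nonneg_right (by linarith [hy.1]) hT0.le
      linarith
    have h4 : (w (b + y * I)).im < 0 := by
      rw [h2]
      exact div_neg_of_neg_of_pos (by linarith [hy.2]) hT0
    have h5 := hL2 _ h1 h3 h4
    have h6 := hlogw (b + y * I) (by simp; linarith)
    rw [hΨ]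
    simp only
    rw [← h5, h6]
    ring
  -- bounds and differentiability on the rectangle
  have hrect : ∀ z : ℂ, a ≤ z.re → z.re ≤ b → -Real.pi ≤ z.im → z.im ≤ θ →
      DifferentiableAt ℂ Ψ z ∧ ‖Ψ z‖ ≤ A * z.re := by
    intro z h1 h2 h3 h4
    have hz0 : 0 < z.re := by linarith
    have hz1 : 1 ≤ z.re := by linarith
    have h5 : 0 < (w z).re := by rw [hwre]; positivity
    have h6 : (w z).re ≤ 2 := by
      rw [hwre, div_le_iff₀ hT0]; exact h2
    have h7 : -η ≤ (w z).im := by
      rw [hwim]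
      have : -((Real.pi + γ) / T) ≤ (z.im - γ) / T := by
        rw [← neg_div]
        exact div_le_div_of_nonneg_right (by linarith) hT0.le
      linarith
    have h8 : (w z).im < 0 := by
      rw [hwim]
      exact div_neg_of_neg_of_pos (by linarith) hT0
    have hzn : ‖z - γ * I‖ ≤ 5 * z.re := by
      have e1 := Complex.norm_le_abs_re_add_abs_im (z - γ * I)
      have e2 : (z - γ * I).re = z.re := by simp
      have e3 : (z - γ * I).im = z.im - γ := by simp
      rw [e2, e3, abs_of_pos hz0] at e1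
      have e4 : |z.im - γ| ≤ Real.pi + γ := by
        rw [abs_le]; constructor <;> linarith
      have e5 : Real.pi + γ ≤ 4 * z.re := by
        have : a = 1 + γ := ha
        nlinarith
      linarith
    have hwn : ‖w z‖ ≤ 5 * z.re / T := by
      rw [hw]
      simp only
      rw [norm_div, Complex.norm_real, Real.norm_eq_abs, abs_of_pos hT0]
      exact div_le_div_of_nonneg_right hzn hT0.le
    constructor
    · have d1 : DifferentiableAt ℂ (fun z => G (w z)) z :=
        DifferentiableAt.comp (g := G) (f := w) z (D.Gd _ h5) (hwd z)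
      have d2 : DifferentiableAt ℂ (fun z => L (w z)) z :=
        DifferentiableAt.comp (g := L) (f := w) z (hLd _ h5 h6 h7 h8) (hwd z)
      have d3 : DifferentiableAt ℂ (fun z => log (w z)) z :=
        (hwd z).clog (Or.inl h5)
      have d4 : DifferentiableAt ℂ (fun z : ℂ => log (z - γ * I)) z := by
        refine DifferentiableAt.clog (by fun_prop) (Or.inl ?_)
        simpa using hz0
      rw [hΨ]
      exact (d1.sub (d2.sub (d3.const_mul _))).sub (d4.const_mul _)
    · have e1 : ‖G (w z)‖ ≤ |CG| * z.re := by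
        have h9 : ‖w z‖ ≤ 5 * (w z).re := by
          refine hwn.trans (le_of_eq ?_)
          rw [hwre]; ring
        have h10 := (hCG _ h5 h9).trans (le_abs_self _)
        calc ‖G (w z)‖ ≤ |CG| * 1 := by linarith
          _ ≤ |CG| * z.re := by gcongr
      have e2 : ‖L (w z) - m * log (w z)‖ ≤ B * (11 + 5 * Dd) * z.re := by
        refine (hLb _ h5 h6 h7 h8).trans ?_
        have h9 : -(w z).im = (γ - z.im) / T := by rw [hwim]; ring
        have h10 : |Real.log (-(w z).im)| ≤ Dd + Real.log T := by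
          rw [h9, Real.log_div (by linarith) hT0.ne']
          have h11 : |Real.log (γ - z.im)| ≤ Dd :=
            abs_log_le hδ0 (by linarith) (by linarith)
          have h12 := abs_sub (Real.log (γ - z.im)) (Real.log T)
          rw [abs_of_nonneg (Real.log_nonneg hT1)] at h12
          linarith
        have hlogT : Real.log T ≤ T := (Real.log_le_sub_one_of_pos hT0).trans (by linarith)
        have h11 : ‖w z‖ * (1 + |Real.log (-(w z).im)|) ≤ 5 * z.re * (2 + Dd) := by
          calc ‖w z‖ * (1 + |Real.log (-(w z).im)|) ≤ (5 * z.re / T) * (1 + (Dd + Real.log T)) := by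
                gcongr
            _ ≤ (5 * z.re / T) * ((2 + Dd) * T) := by
                gcongr
                nlinarith
            _ = _ := by field_simp
        calc B * (1 + ‖w z‖ * (1 + |Real.log (-(w z).im)|)) ≤ B * (z.re + 5 * z.re * (2 + Dd)) := by
              gcongr
          _ = _ := by ring
      have e3 : ‖(m : ℂ) * log (z - γ * I)‖ ≤ 7 * |(m : ℝ)| * z.re := by
        rw [norm_mul, Complex.norm_intCast]
        have h9 := norm_log_le (z := z - γ * I) (by simpa using hz1)
        have h10 : ‖log (z - γ * I)‖ ≤ 7 * z.re := by linarith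
        calc |(m : ℝ)| * ‖log (z - γ * I)‖ ≤ |(m : ℝ)| * (7 * z.re) := by gcongr
          _ = _ := by ring
      rw [hΨ]
      simp only
      calc ‖G (w z) - (L (w z) - m * log (w z)) - m * log (z - γ * I)‖ ≤
          ‖G (w z)‖ + ‖L (w z) - m * log (w z)‖ + ‖(m : ℂ) * log (z - γ * I)‖ :=
            (norm_sub_le _ _).trans (add_le_add (norm_sub_le _ _) le_rfl)
        _ ≤ |CG| * z.re + B * (11 + 5 * Dd) * z.re + 7 * |(m : ℝ)| * z.re :=
            add_le_add (add_le_add e1 e2) e3
        _ = A * z.re := by rw [hA]; ring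
  -- Cauchy's theorem
  have E6 := shift (f := fun z => K z * Ψ z) (a := a) (b := b) (θ := θ) (by
    intro z hz
    rw [mem_reProdIm, uIcc_of_le hab, uIcc_of_le (by linarith)] at hz
    exact ((differentiable_K z).mul (hrect z hz.1.1 hz.1.2 hz.2.1 hz.2.2).1).differentiableWithinAt)
  have E7 : ‖∫ y in (-Real.pi)..θ, K (a + y * I) * Ψ (a + y * I)‖ ≤
      Real.exp (Real.exp a) * (A * a) * (2 * Real.pi) := by
    have h1 : ‖∫ y in (-Real.pi)..θ, K (a + y * I) * Ψ (a + y * I)‖ ≤
        (Real.exp (Real.exp a) * (A * a)) * |θ - -Real.pi| := by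
      refine intervalIntegral.norm_integral_le_of_norm_le_const fun y hy => ?_
      rw [uIoc_of_le (by linarith)] at hy
      rw [norm_mul]
      have h2 := (hrect (a + y * I) (by simp) (by simpa using hab) (by simpa using hy.1.le)
        (by simpa using hy.2)).2
      have h3 : ((a : ℂ) + y * I).re = a := by simp
      rw [h3] at h2
      exact mul_le_mul (norm_K_le a y) h2 (norm_nonneg _) (Real.exp_pos _).le
    have h4 : |θ - -Real.pi| ≤ 2 * Real.pi := by
      rw [abs_of_nonneg (by linarith)]; linarith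
    refine h1.trans ?_
    gcongr
  have E8 : ‖∫ x in a..b, K (x + θ * I) * Ψ (x + θ * I)‖ ≤ A * (2 / κ ^ 2) := by
    refine horiz_le hκ0 (by linarith) hab hA0 (by rw [hκ]; linarith) fun x hx => ?_
    have h2 := (hrect (x + θ * I) (by simpa using hx.1) (by simpa using hx.2)
      (by simp; linarith) (by simp)).2
    simpa using h2
  have E9 : ‖∫ x in a..b, K (x - Real.pi * I) * Ψ (x - Real.pi * I)‖ ≤ A * (2 / κ ^ 2) := by
    have h1 : ∀ x : ℝ, (x : ℂ) - Real.pi * I = x + ((-Real.pi : ℝ) : ℂ) * I := by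
      intro x; push_cast; ring
    simp only [h1]
    refine horiz_le hκ0 (by linarith) hab hA0 ?_ fun x hx => ?_
    · rw [Real.cos_neg, Real.cos_pi]; linarith
    · have h2 := (hrect (x + ((-Real.pi : ℝ) : ℂ) * I) (by simpa using hx.1) (by simpa using hx.2)
        (by simp) (by simp; linarith)).2
      simpa using h2
  have E10 : ‖∫ y in (-Real.pi)..θ, K (b + y * I) * Ψ (b + y * I)‖ ≤
      Real.exp (Real.exp a) * (A * a) * (2 * Real.pi) + A * (2 / κ ^ 2) + A * (2 / κ ^ 2) := by
    have h1 : ‖∫ y in (-Real.pi)..θ, K (b + y * I) * Ψ (b + y * I)‖ =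
        ‖I * ∫ y in (-Real.pi)..θ, K (b + y * I) * Ψ (b + y * I)‖ := by
      rw [norm_mul, Complex.norm_I, one_mul]
    rw [h1]
    rw [E6]
    refine (norm_sub_le _ _).trans (add_le_add ((norm_add_le _ _).trans (add_le_add ?_ E8)) E9)
    rw [norm_mul, Complex.norm_I, one_mul]
    exact E7
  -- the integral of the kernel
  have hKc : Continuous fun y : ℝ => K (b + y * I) := continuous_K.comp (by fun_prop)
  have E11 : (2 * Real.pi : ℂ)⁻¹ * ((∫ y in (-Real.pi)..θ, K (b + y * I)) +
      ∫ y in θ..Real.pi, K (b + y * I)) = 1 := by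
    have h1 := Pool.Agent.W189.LC.V_one b 1
    unfold V at h1
    simp only [mul_one] at h1
    rw [intervalIntegral.integral_add_adjacent_intervals (hKc.intervalIntegrable _ _)
      (hKc.intervalIntegrable _ _)]
    exact h1
  have E12 : ‖∫ y in θ..Real.pi, K (b + y * I)‖ ≤ Real.exp (-(κ * Real.exp b)) * |Real.pi - θ| := by
    refine intervalIntegral.norm_integral_le_of_norm_le_const fun y hy => ?_
    rw [uIoc_of_le hθ3] at hy
    refine norm_K_neg ?_
    rw [hκ, neg_neg]
    exact Real.cos_le_cos_of_nonneg_of_le_pi (by linarith) hy.2 hy.1.le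
  -- assembling
  have hVb : V b (fun z => ser lam c (w z)) = (2 * Real.pi : ℂ)⁻¹ *
      ((∫ y in (-Real.pi)..θ, K (b + y * I) * Ψ (b + y * I)) +
        m * Real.log T * (∫ y in (-Real.pi)..θ, K (b + y * I)) +
        ∫ y in θ..Real.pi, K (b + y * I) * ser lam c (w (b + y * I))) := by
    unfold V
    rw [← E4]
    congr 2
    have hΨi : IntervalIntegrable (fun y : ℝ => K (b + y * I) * Ψ (b + y * I)) volume
        (-Real.pi) θ := by
      have h1 : IntervalIntegrable (fun y : ℝ => K (b + y * I) * ser lam c (w (b + y * I)) -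
          (m * Real.log T : ℂ) * K (b + y * I)) volume (-Real.pi) θ :=
        hsub1.sub ((hKc.intervalIntegrable _ _).const_mul _)
      refine h1.congr fun y hy => ?_
      rw [uIoc_of_le (by linarith)] at hy
      rw [hser y ⟨hy.1.le, hy.2⟩]
      ring
    rw [← intervalIntegral.integral_const_mul, ← intervalIntegral.integral_add hΨi
      ((hKc.intervalIntegrable _ _).const_mul _)]
    refine intervalIntegral.integral_congr fun y hy => ?_
    rw [uIcc_of_le (by linarith)] at hy
    rw [hser y hy]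
    ring
  have hfin : cmean lam c γ T - m * Real.log T = (2 * Real.pi : ℂ)⁻¹ *
      (∫ y in (-Real.pi)..θ, K (b + y * I) * Ψ (b + y * I)) -
      m * Real.log T * ((2 * Real.pi : ℂ)⁻¹ * ∫ y in θ..Real.pi, K (b + y * I)) +
      (2 * Real.pi : ℂ)⁻¹ * (∫ y in θ..Real.pi, K (b + y * I) * ser lam c (w (b + y * I))) +
      ∫ x in Ioi b, rho (fun z => ser lam c (w z)) x := by
    rw [← E1]
    unfold J
    have h1 : V b (fun z => ser lam c ((z - γ * I) / T)) = V b (fun z => ser lam c (w z)) := rfl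
    have h2 : (∫ x in Ioi b, rho (fun z => ser lam c ((z - γ * I) / T)) x) =
      ∫ x in Ioi b, rho (fun z => ser lam c (w z)) x := rfl
    rw [h1, h2, hVb]
    linear_combination (m * Real.log T : ℂ) * E11
  have hn2 : ‖(2 * Real.pi : ℂ)⁻¹‖ ≤ 1 ∧ ‖(2 * Real.pi : ℂ)⁻¹‖ * Real.pi ≤ 1 := by
    have h1 : ‖(2 * Real.pi : ℂ)⁻¹‖ = (2 * Real.pi)⁻¹ := by
      rw [norm_inv, norm_mul, Complex.norm_real, Real.norm_eq_abs, abs_of_pos Real.pi_pos]
      norm_num
    rw [h1]
    constructor
    · rw [inv_le_one_iff₀]; right; linarith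
    · rw [inv_mul_le_iff₀ (by positivity)]; linarith
  have hpt : |Real.pi - θ| ≤ Real.pi := by
    rw [abs_of_nonneg (by linarith)]; linarith
  have F1 : ‖(2 * Real.pi : ℂ)⁻¹ * (∫ y in (-Real.pi)..θ, K (b + y * I) * Ψ (b + y * I))‖ ≤
      Real.exp (Real.exp a) * (A * a) * (2 * Real.pi) + A * (2 / κ ^ 2) + A * (2 / κ ^ 2) := by
    rw [norm_mul]
    calc _ ≤ 1 * (Real.exp (Real.exp a) * (A * a) * (2 * Real.pi) + A * (2 / κ ^ 2) +
          A * (2 / κ ^ 2)) := mul_le_mul hn2.1 E10 (norm_nonneg _) zero_le_one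
      _ = _ := one_mul _
  have F2 : ‖(m : ℂ) * Real.log T * ((2 * Real.pi : ℂ)⁻¹ * ∫ y in θ..Real.pi, K (b + y * I))‖ ≤
      |(m : ℝ)| * (2 / κ ^ 2) := by
    rw [norm_mul, norm_mul, norm_mul, Complex.norm_intCast, Complex.norm_real, Real.norm_eq_abs,
      abs_of_nonneg (Real.log_nonneg hT1), mul_assoc]
    have h1 : ‖(2 * Real.pi : ℂ)⁻¹‖ * ‖∫ y in θ..Real.pi, K (b + y * I)‖ ≤
        Real.exp (-(κ * Real.exp b)) := by
      calc _ ≤ ‖(2 * Real.pi : ℂ)⁻¹‖ * (Real.exp (-(κ * Real.exp b)) * Real.pi) := by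
            gcongr
            exact E12.trans (by gcongr)
        _ = (‖(2 * Real.pi : ℂ)⁻¹‖ * Real.pi) * Real.exp (-(κ * Real.exp b)) := by ring
        _ ≤ 1 * Real.exp (-(κ * Real.exp b)) := by gcongr; exact hn2.2
        _ = _ := one_mul _
    have h2 := dexp_le hκ0 hb0
    have h3 : Real.exp (-b) ≤ 1 := Real.exp_le_one_iff.2 (by linarith)
    have h4 : Real.log T ≤ b := (Real.log_le_sub_one_of_pos hT0).trans (by linarith)
    have h5 : Real.log T * (‖(2 * Real.pi : ℂ)⁻¹‖ * ‖∫ y in θ..Real.pi, K (b + y * I)‖) ≤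
        2 / κ ^ 2 := by
      calc _ ≤ b * Real.exp (-(κ * Real.exp b)) := by
            gcongr
        _ = Real.exp (-(κ * Real.exp b)) * b := by ring
        _ ≤ 2 / κ ^ 2 * Real.exp (-b) := h2
        _ ≤ 2 / κ ^ 2 * 1 := by gcongr
        _ = _ := mul_one _
    exact mul_le_mul_of_nonneg_left h5 (abs_nonneg _)
  have F3 : ‖(2 * Real.pi : ℂ)⁻¹ * (∫ y in θ..Real.pi, K (b + y * I) *
      ser lam c (w (b + y * I)))‖ ≤ S2 := by
    rw [norm_mul]
    calc _ ≤ ‖(2 * Real.pi : ℂ)⁻¹‖ * (S2 * Real.pi) := by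
          gcongr
          exact E5.trans (by gcongr)
      _ = (‖(2 * Real.pi : ℂ)⁻¹‖ * Real.pi) * S2 := by ring
      _ ≤ 1 * S2 := by gcongr; exact hn2.2
      _ = _ := one_mul _
  have F4 : ‖cmean lam c γ T - m * Real.log T‖ ≤
      (Real.exp (Real.exp a) * (A * a) * (2 * Real.pi) + A * (2 / κ ^ 2) + A * (2 / κ ^ 2)) +
      |(m : ℝ)| * (2 / κ ^ 2) + S2 + S2 := by
    rw [hfin]
    refine (norm_add_le _ _).trans (add_le_add ?_ E3)
    refine (norm_add_le _ _).trans (add_le_add ?_ F3)
    exact (norm_sub_le _ _).trans (add_le_add F1 F2)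
  have F5 : rmean lam c γ T - m * Real.log T = (cmean lam c γ T - m * Real.log T).re := by
    rw [Complex.sub_re, E2]
    congr 1
    have : (m : ℂ) * (Real.log T : ℂ) = ((m * Real.log T : ℝ) : ℂ) := by push_cast; rfl
    rw [this, Complex.ofReal_re]
  rw [F5]
  exact (Complex.abs_re_le_norm _).trans F4

end Pool.Agent.W187.UR
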