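import Pool.Agent.W187.UR.Main
import Pool.Agent.W187.UR.Bel
import Pool.Agent.W189.ML.Final
import Pool.Agent.W189.LC.EPMain

/-! The rotated Mittag-Leffler means of the Birch and Swinnerton-Dyer products. -/

set_option autoImplicit false

namespace Pool.Agent.W187.UR

open MeasureTheory Filter Topology Set Classical
open Pool.Agent.W189.ML Pool.Agent.W263.BSD
open Pool.Agent.W189.LC hiding cf

/-- the `O(1)` law from a logarithm below the segment -/
theorem rot_bel {ι : Type} [Countable ι] {lam c : ι → ℝ} {G : ℂ → ℂ} (D : SData lam c G) {γ : ℝ}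
    (hγ : Real.pi / 2 < γ) {m : ℤ} {r₀ : ℂ} {η B : ℝ} {L : ℂ → ℂ} (hL : Bel m r₀ η B L)
    (hL2 : ∀ w : ℂ, w.re = 2 → -η ≤ w.im → w.im < 0 → G w - ser lam c w = L w) :
    ∃ C T₀ : ℝ, ∀ T ≥ T₀, |rmean lam c γ T - m * Real.log T| ≤ C := by
  have h1 : min η 1 ≤ η := min_le_left _ _
  have h2 : min η 1 ≤ 1 := min_le_right _ _
  refine rot_main D hγ m L (η := min η 1) (B := ‖r₀‖ + 3 * B) (lt_min hL.hη one_pos)
    (by have := hL.hB; positivity) (fun w h3 h4 h5 h6 => hL.diff w h3 h4 (by linarith) h6)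
    (fun w h3 h4 h5 h6 => ?_) (fun w h3 h4 h5 => hL2 w h3 (by linarith) h5)
  have h7 := hL.bound w h3 h4 (by linarith) h6
  have h8 : ‖w‖ ≤ 3 := by
    have := Complex.norm_le_abs_re_add_abs_im w
    rw [abs_of_pos h3, abs_of_neg h6] at this
    linarith
  set l := |Real.log (-w.im)| with hl
  have hl0 : 0 ≤ l := abs_nonneg _
  have hw0 : 0 ≤ ‖w‖ := norm_nonneg _
  have hB := hL.hB
  have h9 : ‖L w - m * Complex.log w‖ ≤ ‖L w - m * Complex.log w - r₀‖ + ‖r₀‖ := by
    have := norm_add_le (L w - m * Complex.log w - r₀) r₀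
    rwa [sub_add_cancel] at this
  have h10 : B * ‖w‖ * (1 + ‖w‖ * l) ≤ B * ‖w‖ * (3 * (1 + l)) := by
    gcongr
    nlinarith
  have h11 : 0 ≤ ‖w‖ * (1 + l) := by positivity
  have h12 : 0 ≤ ‖r₀‖ := norm_nonneg _
  calc ‖L w - m * Complex.log w‖ ≤ B * ‖w‖ * (3 * (1 + l)) + ‖r₀‖ := by linarith
    _ ≤ (‖r₀‖ + 3 * B) * (1 + ‖w‖ * (1 + l)) := by
      have e1 : (‖r₀‖ + 3 * B) * (1 + ‖w‖ * (1 + l)) = B * ‖w‖ * (3 * (1 + l)) + ‖r₀‖ +
        (3 * B + ‖r₀‖ * (‖w‖ * (1 + l))) := by ring
      rw [e1]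
      have : 0 ≤ 3 * B + ‖r₀‖ * (‖w‖ * (1 + l)) := by positivity
      linarith

/-- analyticity of a Dirichlet series -/
theorem ser_analytic {ι : Type} {lam c : ι → ℝ} (h0 : ∀ i, 0 ≤ lam i)
    (hs : ∀ σ : ℝ, 1 < σ → Summable fun i => |c i| * Real.exp (-(σ * lam i)))
    {w : ℂ} (hw : 1 < w.re) : AnalyticAt ℂ (ser lam c) w := by
  set σ : ℝ := (1 + w.re) / 2 with hσ
  have hσ1 : 1 < σ := by rw [hσ]; linarith
  have hσw : σ < w.re := by rw [hσ]; linarith
  have hopen : IsOpen {z : ℂ | σ < z.re} := isOpen_lt continuous_const Complex.continuous_re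
  have h1 : DifferentiableOn ℂ (ser lam c) {z : ℂ | σ < z.re} := by
    unfold ser
    refine Complex.differentiableOn_tsum_of_summable_norm (hs σ hσ1) (fun i => ?_) hopen
      (fun i z hz => ?_)
    · exact Differentiable.differentiableOn (by fun_prop)
    · rw [norm_mul, Complex.norm_real, Real.norm_eq_abs, Complex.norm_exp]
      refine mul_le_mul_of_nonneg_left ?_ (abs_nonneg _)
      apply Real.exp_le_exp.2
      have h2 : (-(z * lam i)).re = -(z.re * lam i) := by rw [Complex.neg_re, Complex.re_mul_ofReal]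
      rw [h2]
      have hz' : σ < z.re := hz
      have := h0 i
      nlinarith
  exact h1.analyticAt (hopen.mem_nhds hσw)

variable {a b : ℤ} {F : ℂ → ℂ}

theorem cf_sum (a b : ℤ) (σ : ℝ) (hσ : 1 < σ) :
    Summable fun p : ℕ => |cf a b p| * Real.exp (-(σ * Real.log p)) := by
  refine Summable.of_nonneg_of_le (fun p => by positivity) (fun p => ?_)
    (Real.summable_nat_rpow.mpr (by linarith : -σ < -1))
  unfold cf
  by_cases hp : p ∈ SS a b
  · have h25 : 25 ≤ p := hp.2
    have hp0 : (0 : ℝ) < p := by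
      have : 0 < p := by omega
      exact_mod_cast this
    rw [if_pos hp]
    have h1 : Real.exp (-(σ * Real.log p)) = (p : ℝ) ^ (-σ) := by
      rw [Real.rpow_def_of_pos hp0]
      congr 1
      ring
    rw [h1]
    have := (eData a b).cc_abs hp
    have h2 : 0 ≤ (p : ℝ) ^ (-σ) := by positivity
    nlinarith
  · rw [if_neg hp]
    simp
    positivity

/-- the `O(1)` law for the smooth part -/
theorem rmean_law (hF : IsLSeries a b F) (hbel : S_BEL) {m : ℕ} (hm : analyticOrderAt F 1 = m)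
    {γ : ℝ} (hγ : Real.pi / 2 < γ) :
    ∃ C T₀ : ℝ, ∀ T ≥ T₀, |rmean (fun p : ℕ => Real.log p) (cf a b) γ T - m * Real.log T| ≤ C := by
  have E := eData a b
  set g : ℂ → ℂ := fun w => GG (SS a b) (Ap a b) w - ser (fun p : ℕ => Real.log p) (cf a b) w with hg
  have hPa : ∀ z, AnalyticAt ℂ (PhiF a b F) z := fun z => (PhiF_differentiable hF).analyticAt z
  have hopen : IsOpen {z : ℂ | 0 < z.re} := isOpen_lt continuous_const Complex.continuous_re
  have hga : ∀ w : ℂ, 1 < w.re → AnalyticAt ℂ g w := by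
    intro w hw
    have h1 : DifferentiableOn ℂ (GG (SS a b) (Ap a b)) {z : ℂ | 0 < z.re} := fun z hz =>
      (E.GG_differentiable hz).differentiableWithinAt
    have h2 : AnalyticAt ℂ (GG (SS a b) (Ap a b)) w :=
      h1.analyticAt (hopen.mem_nhds (show 0 < w.re by linarith))
    exact h2.sub (ser_analytic (fun p => Real.log_natCast_nonneg p) (cf_sum a b) hw)
  have hge : ∀ w : ℂ, 1 < w.re → PhiF a b F w = Complex.exp (g w) := fun w hw =>
    (exp_eq E hw (PhiF_hasProd hF hw)).symm
  have hgr : ∀ x : ℝ, 1 < x → (g x).im = 0 := by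
    intro x hx
    rw [hg]
    simp only [Complex.sub_im]
    rw [E.GG_im (by linarith : 0 < x), ser_real, sub_zero]
  -- orders
  have hone : PhiF a b F 2 ≠ 0 := by
    rw [hge 2 (by norm_num)]
    exact Complex.exp_ne_zero _
  have htop : ∀ z, analyticOrderAt (PhiF a b F) z ≠ ⊤ := by
    intro z h
    rw [analyticOrderAt_eq_top] at h
    have h1 : AnalyticOnNhd ℂ (PhiF a b F) univ := fun z _ => hPa z
    have h2 := h1.eqOn_zero_of_preconnected_of_eventuallyEq_zero isPreconnected_univ
      (mem_univ z) h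
    exact hone (h2 (mem_univ _))
  have hmer : ∀ x ∈ Icc (0 : ℝ) 2, meromorphicOrderAt (PhiF a b F) (x : ℂ) ≠ ⊤ := by
    intro x _
    rw [(hPa x).meromorphicOrderAt_eq]
    intro h
    refine htop x ?_
    cases h3 : analyticOrderAt (PhiF a b F) (x : ℂ) with
    | top => rfl
    | coe n => rw [h3] at h; simp at h
  have hord : meromorphicOrderAt (PhiF a b F) 0 = ((m : ℤ) : WithTop ℤ) := by
    have h1 : PhiF a b F = fun w => F (1 + w) * small a b w := rfl
    have hFa : Differentiable ℂ fun w : ℂ => F (1 + w) := hF.1.comp (by fun_prop)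
    have h2 : MeromorphicAt (fun w : ℂ => F (1 + w)) 0 := (hFa.analyticAt 0).meromorphicAt
    have h3 : AnalyticAt ℂ (small a b) 0 := small_differentiable.analyticAt 0
    have h4 : meromorphicOrderAt (fun w => F (1 + w) * small a b w) 0 =
        meromorphicOrderAt (fun w => F (1 + w)) 0 + meromorphicOrderAt (small a b) 0 :=
      meromorphicOrderAt_mul h2 h3.meromorphicAt
    have h5 : small a b 0 ≠ 0 := by
      have := small_ne_zero_real (a := a) (b := b) (w := 0) le_rfl
      simpa using this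
    rw [h1, h4, order_shift0, h3.meromorphicOrderAt_eq, h3.analyticOrderAt_eq_zero.2 h5,
      (hF.1.analyticAt 1).meromorphicOrderAt_eq, hm]
    simp
  obtain ⟨η, B, L, r₀, hL, hL2, -⟩ := hbel (PhiF a b F) g
    (fun x _ => (hPa x).meromorphicAt) hmer hga hge hgr m hord
  have h6 := rot_bel (sdata E) hγ hL (fun w h3 h4 h5 => hL2 w h3 h4 h5)
  obtain ⟨C, T₀, h7⟩ := h6
  refine ⟨C, T₀, fun T hT => ?_⟩
  have h8 := h7 T hT
  have h9 : (fun p : ℕ => if p ∈ SS a b then cc (Ap a b) p else 0) = cf a b := rfl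
  rw [h9] at h8
  simpa using h8

/-- the rotated sum: `∑ cos (c log p / log X) log ((N_p + 1) / p) / Γ (1 + log p / log X)` over the
primes `p ∤ 2Δ` -/
noncomputable def rotSum (a b : ℤ) (c X : ℝ) : ℝ :=
  ∑' p : ℕ, if GoodPrime a b p then Real.cos (c * (Real.log p / Real.log X)) *
    Real.log (((pointCount a b p : ℝ) + 1) / p) / Real.Gamma (1 + Real.log p / Real.log X) else 0

/-- the finite part -/
noncomputable def rft (a b : ℤ) (c T : ℝ) (p : ℕ) : ℝ := Real.cos (c * (Real.log p / T)) * ft a b T p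

theorem rterm_eq (c T : ℝ) (p : ℕ) :
    (if GoodPrime a b p then Real.cos (c * (Real.log p / T)) *
      Real.log (((pointCount a b p : ℝ) + 1) / p) / Real.Gamma (1 + Real.log p / T) else 0) =
    cf a b p * (Real.cos (c * (Real.log p / T)) * om (Real.log p / T)) + rft a b c T p := by
  have h := term_eq (a := a) (b := b) T p
  unfold rft
  have h2 : (if GoodPrime a b p then Real.cos (c * (Real.log p / T)) *
      Real.log (((pointCount a b p : ℝ) + 1) / p) / Real.Gamma (1 + Real.log p / T) else 0) =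
      Real.cos (c * (Real.log p / T)) * (if GoodPrime a b p then
      Real.log (((pointCount a b p : ℝ) + 1) / p) / Real.Gamma (1 + Real.log p / T) else 0) := by
    split_ifs
    · rw [mul_div_assoc]
    · rw [mul_zero]
  rw [h2, h]
  ring

theorem rcf_summable (c : ℝ) {T : ℝ} (hT : 0 < T) :
    Summable fun p : ℕ => cf a b p * (Real.cos (c * (Real.log p / T)) * om (Real.log p / T)) := by
  refine Summable.of_norm_bounded (cf_summable (a := a) (b := b) hT) fun p => ?_
  rw [Real.norm_eq_abs, abs_mul, abs_mul, abs_mul]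
  have h1 := Real.abs_cos_le_one (c * (Real.log p / T))
  have h2 : 0 ≤ |cf a b p| * |om (Real.log p / T)| := by positivity
  calc |cf a b p| * (|Real.cos (c * (Real.log p / T))| * |om (Real.log p / T)|) =
      |Real.cos (c * (Real.log p / T))| * (|cf a b p| * |om (Real.log p / T)|) := by ring
    _ ≤ 1 * (|cf a b p| * |om (Real.log p / T)|) := by gcongr
    _ = _ := one_mul _

theorem rotSum_eq (c : ℝ) {T : ℝ} (hT : 0 < T) {X : ℝ} (hX : Real.log X = T) :
    rotSum a b c X = rmean (fun p : ℕ => Real.log p) (cf a b) c T +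
      ∑ p ∈ Finset.range 25, rft a b c T p := by
  unfold rotSum rmean
  rw [hX]
  simp only [rterm_eq]
  have hz : ∀ p ∉ Finset.range 25, rft a b c T p = 0 := fun p hp => by
    unfold rft
    rw [ft_zero (a := a) (b := b) T hp, mul_zero]
  rw [(rcf_summable c hT).tsum_add (summable_of_ne_finset_zero hz), tsum_eq_sum hz]

theorem rft_bound (a b : ℤ) (c : ℝ) : ∃ B : ℝ, 0 ≤ B ∧ ∀ T : ℝ, 0 < T →
    |∑ p ∈ Finset.range 25, rft a b c T p| ≤ B := by
  refine ⟨∑ p ∈ Finset.range 25, |lp a b p| * (Real.exp 1 + 1), by positivity, fun T hT => ?_⟩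
  refine (Finset.abs_sum_le_sum_abs _ _).trans (Finset.sum_le_sum fun p _ => ?_)
  have hv : 0 ≤ Real.log p / T := by
    have := Real.log_natCast_nonneg p
    positivity
  unfold rft ft
  have h1 := Real.abs_cos_le_one (c * (Real.log p / T))
  rw [abs_mul]
  split_ifs
  · rw [abs_mul, abs_of_nonneg (om_nonneg hv)]
    calc |Real.cos (c * (Real.log p / T))| * (|lp a b p| * om (Real.log p / T)) ≤
        1 * (|lp a b p| * (Real.exp 1 + 1)) := by
          refine mul_le_mul h1 ?_ (mul_nonneg (abs_nonneg _) (om_nonneg hv)) zero_le_one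
          exact mul_le_mul_of_nonneg_left (om_le_const hv) (abs_nonneg _)
      _ = _ := one_mul _
  · rw [abs_zero, mul_zero]
    positivity

theorem rmean_bound (a b : ℤ) (c T₁ : ℝ) : ∃ B : ℝ, ∀ T : ℝ, 0 < T → T ≤ T₁ →
    |rmean (fun p : ℕ => Real.log p) (cf a b) c T| ≤ B := by
  refine ⟨∑' p : ℕ, (Real.exp (Real.exp (2 * T₁)) + 1) * (p : ℝ) ^ (-2 : ℝ), fun T hT hT1 => ?_⟩
  have hs : Summable fun p : ℕ => (Real.exp (Real.exp (2 * T₁)) + 1) * (p : ℝ) ^ (-2 : ℝ) :=
    (Real.summable_nat_rpow.mpr (by norm_num : (-2 : ℝ) < -1)).mul_left _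
  unfold rmean
  rw [← Real.norm_eq_abs]
  refine tsum_of_norm_bounded hs.hasSum fun p => ?_
  rw [Real.norm_eq_abs]
  have h1 := Real.abs_cos_le_one (c * (Real.log p / T))
  have h2 := cf_le (a := a) (b := b) p (Real.log p / T)
    (by have := Real.log_natCast_nonneg p; positivity) hT rfl
  rw [abs_mul] at h2
  rw [abs_mul, abs_mul]
  have h3 : 0 ≤ |cf a b p| * |om (Real.log p / T)| := by positivity
  calc |cf a b p| * (|Real.cos (c * (Real.log p / T))| * |om (Real.log p / T)|) =
      |Real.cos (c * (Real.log p / T))| * (|cf a b p| * |om (Real.log p / T)|) := by ring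
    _ ≤ 1 * (|cf a b p| * |om (Real.log p / T)|) := by gcongr
    _ = |cf a b p| * |om (Real.log p / T)| := one_mul _
    _ ≤ (Real.exp (Real.exp (2 * T)) + 1) * (p : ℝ) ^ (-2 : ℝ) := h2
    _ ≤ _ := by gcongr

/-- **absolute convergence** -/
theorem rot_summable (c : ℝ) {X : ℝ} (hX : 1 < X) :
    Summable fun p : ℕ => |if GoodPrime a b p then Real.cos (c * (Real.log p / Real.log X)) *
      Real.log (((pointCount a b p : ℝ) + 1) / p) / Real.Gamma (1 + Real.log p / Real.log X)
      else 0| := by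
  have hT := Real.log_pos hX
  simp only [rterm_eq]
  have hz : ∀ p ∉ Finset.range 25, rft a b c (Real.log X) p = 0 := fun p hp => by
    unfold rft
    rw [ft_zero (a := a) (b := b) _ hp, mul_zero]
  exact ((rcf_summable c hT).add (summable_of_ne_finset_zero hz)).abs

/-- **the unconditional law** -/
theorem rot_law (hF : IsLSeries a b F) (hbel : S_BEL) {m : ℕ} (hm : analyticOrderAt F 1 = m)
    {c : ℝ} (hc : Real.pi / 2 < c) :
    ∃ M : ℝ, ∀ X : ℝ, 3 ≤ X → |rotSum a b c X - m * Real.log (Real.log X)| ≤ M := by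
  obtain ⟨C, T₀, hC⟩ := rmean_law hF hbel hm hc
  obtain ⟨B₁, hB₁⟩ := rmean_bound a b c T₀
  obtain ⟨B₂, -, hB₂⟩ := rft_bound a b c
  refine ⟨max (C + B₂) (B₁ + B₂ + m * Real.log T₀), fun X hX => ?_⟩
  have he3 : Real.exp 1 < 3 := by
    have := Real.exp_one_lt_d9
    linarith
  have hlog1 : 1 < Real.log X := by
    rw [Real.lt_log_iff_exp_lt (by linarith)]
    linarith
  rw [rotSum_eq (a := a) (b := b) c (T := Real.log X) (by linarith) rfl]
  have h2 := abs_le.mp (hB₂ (Real.log X) (by linarith))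
  by_cases h : T₀ ≤ Real.log X
  · refine le_max_of_le_left ?_
    have h1 := abs_le.mp (hC (Real.log X) h)
    rw [abs_le]
    constructor <;> linarith [h1.1, h1.2, h2.1, h2.2]
  · refine le_max_of_le_right ?_
    push Not at h
    have h1 := hB₁ (Real.log X) (by linarith) h.le
    have h3 : 0 ≤ Real.log (Real.log X) := Real.log_nonneg hlog1.le
    have h4 : Real.log (Real.log X) ≤ Real.log T₀ := Real.log_le_log (by linarith) h.le
    have h5 : (m : ℝ) * Real.log (Real.log X) ≤ m * Real.log T₀ := by gcongr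
    have h6 : 0 ≤ (m : ℝ) * Real.log (Real.log X) := by positivity
    have h7 := abs_le.mp h1
    have h9 : 0 ≤ B₁ := (abs_nonneg _).trans h1
    rw [abs_le]
    constructor <;> linarith [h7.1, h7.2, h2.1, h2.2]

/-- the order is read off from the sums -/
theorem rot_tendsto (hF : IsLSeries a b F) (hbel : S_BEL) {m : ℕ} (hm : analyticOrderAt F 1 = m)
    {c : ℝ} (hc : Real.pi / 2 < c) :
    Tendsto (fun X : ℝ => rotSum a b c X / Real.log (Real.log X)) atTop (𝓝 (m : ℝ)) := by
  obtain ⟨M, hM⟩ := rot_law hF hbel hm hc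
  have hll : Tendsto (fun X : ℝ => Real.log (Real.log X)) atTop atTop :=
    Real.tendsto_log_atTop.comp Real.tendsto_log_atTop
  rw [tendsto_iff_norm_sub_tendsto_zero]
  refine squeeze_zero' (g := fun X => M / Real.log (Real.log X))
    (Eventually.of_forall fun X => norm_nonneg _) ?_ (tendsto_const_nhds.div_atTop hll)
  filter_upwards [eventually_ge_atTop (3 : ℝ), hll.eventually (eventually_gt_atTop 0)] with X h1 h2
  have h3 : rotSum a b c X / Real.log (Real.log X) - m =
      (rotSum a b c X - m * Real.log (Real.log X)) / Real.log (Real.log X) := by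
    field_simp
  rw [h3, Real.norm_eq_abs, abs_div, abs_of_pos h2]
  exact div_le_div_of_nonneg_right (hM X h1) h2.le

end Pool.Agent.W187.UR
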