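import Pool.Agent.W187.UR.Bel
import Pool.Agent.W187.UR.FacC

/-! The logarithm below the real segment, with the complex constant. -/

set_option autoImplicit false

namespace Pool.Agent.W187.UR

open Complex MeasureTheory Filter Topology Set
open Pool.Agent.W189.ML Pool.Agent.W189.LC

/-- existence of the logarithm below the segment, with the complex constant -/
def S_BELC : Prop := ∀ Φ g : ℂ → ℂ,
  (∀ x ∈ Icc (0 : ℝ) 2, MeromorphicAt Φ (x : ℂ)) →
  (∀ x ∈ Icc (0 : ℝ) 2, meromorphicOrderAt Φ (x : ℂ) ≠ ⊤) →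
  (∀ w : ℂ, 1 < w.re → AnalyticAt ℂ g w) →
  (∀ w : ℂ, 1 < w.re → Φ w = exp (g w)) →
  (∀ x : ℝ, 1 < x → (g x).im = 0) →
  ∀ m : ℤ, meromorphicOrderAt Φ 0 = m →
  ∃ (η B : ℝ) (L : ℂ → ℂ) (r₀ : ℂ), Bel m r₀ η B L ∧
    (∀ w : ℂ, w.re = 2 → -η ≤ w.im → w.im < 0 → g w = L w) ∧
    exp r₀ = meromorphicTrailingCoeffAt Φ 0 ∧
    r₀.im = -Real.pi * ((∑ᶠ x ∈ Ioc (0 : ℝ) 1, (meromorphicOrderAt Φ (x : ℂ)).untop₀ : ℤ) : ℝ)

theorem belc (h : S_FACC) : S_BELC := by
  intro Φ g h1 h2 h3 h4 h5 m hm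
  obtain ⟨Z, n, Q, hZ, hQa, hQr, hQ2, htr, hN⟩ := h Φ g h1 h2 h3 h4 h5 m hm
  have hQs : ∀ x ∈ Icc (0 : ℝ) 2, Q (x : ℂ) ∈ slitPlane := fun x hx => Or.inl (hQr x hx).2
  obtain ⟨δ₁, hδ₁, M, hM0, hM⟩ := rect hQa hQs
  -- the branch near `2`
  have h22 : (2 : ℝ) ∈ Icc (0 : ℝ) 2 := ⟨by norm_num, le_rfl⟩
  have hQa2 : AnalyticAt ℂ Q 2 := by simpa using hQa 2 h22
  have hQr2 : (Q 2).im = 0 ∧ 0 < (Q 2).re := by simpa using hQr 2 h22
  have hg2 : AnalyticAt ℂ g 2 := h3 2 (by norm_num)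
  have hg2i : (g 2).im = 0 := by
    have := h5 2 (by norm_num)
    simpa using this
  have hne2 : ∀ x ∈ Z, (2 : ℂ) - (x : ℂ) ∈ slitPlane := by
    intro x hx
    left
    have := (hZ x hx).2
    simp
    linarith
  have hs2 : (2 : ℂ) ∈ slitPlane := by left; simp
  set L₀ : ℂ → ℂ := fun w => g w - m * log w - ∑ x ∈ Z, (n x : ℂ) * log (w - x) with hL₀
  have hL₀c : ContinuousAt L₀ 2 := by
    refine ContinuousAt.sub (hg2.continuousAt.sub ?_) ?_
    · exact continuousAt_const.mul (ContinuousAt.clog continuousAt_id hs2)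
    · refine tendsto_finsetSum _ fun x hx => ?_
      exact continuousAt_const.mul (ContinuousAt.clog (by fun_prop) (hne2 x hx))
  have hL₀i : (L₀ 2).im = 0 := by
    rw [hL₀]
    simp only [Complex.sub_im, hg2i, Complex.im_sum]
    have e1 : ((m : ℂ) * log 2).im = 0 := by
      have : (2 : ℂ) = ((2 : ℝ) : ℂ) := by push_cast; rfl
      rw [this, ← Complex.ofReal_log (by norm_num), ← Complex.ofReal_intCast, ← Complex.ofReal_mul,
        Complex.ofReal_im]
    have e2 : ∀ x ∈ Z, ((n x : ℂ) * log (2 - (x : ℂ))).im = 0 := by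
      intro x hx
      have h6 : (2 : ℂ) - (x : ℂ) = ((2 - x : ℝ) : ℂ) := by push_cast; rfl
      rw [h6, ← Complex.ofReal_log (by linarith [(hZ x hx).2]), ← Complex.ofReal_intCast,
        ← Complex.ofReal_mul, Complex.ofReal_im]
    rw [e1, Finset.sum_eq_zero e2]
    simp
  obtain ⟨δ₂, hδ₂, hbr⟩ := branch (L := L₀) (Q := Q) (m := 0) hL₀c hL₀i hQa2
    (Or.inl hQr2.2) (by
      exact (log_im hQr2).1) (by
      have e1 : ∀ᶠ w in 𝓝 (2 : ℂ), w ∈ slitPlane := isOpen_slitPlane.mem_nhds hs2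
      have e2 : ∀ᶠ w in 𝓝 (2 : ℂ), ∀ x ∈ Z, w - (x : ℂ) ∈ slitPlane := by
        rw [Filter.eventually_all_finset]
        intro x hx
        have : ContinuousAt (fun w : ℂ => w - (x : ℂ)) 2 := by fun_prop
        exact this.eventually (isOpen_slitPlane.mem_nhds (hne2 x hx))
      filter_upwards [hQ2, e1, e2] with w h6 h7 h8
      have h9 : w ≠ 0 := slitPlane_ne_zero h7
      have h10 : ∀ x ∈ Z, w - (x : ℂ) ≠ 0 := fun x hx => slitPlane_ne_zero (h8 x hx)
      rw [hL₀]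
      simp only
      rw [Complex.exp_sub, Complex.exp_sub, h6, Complex.exp_int_mul, Complex.exp_log h9,
        Complex.exp_sum]
      have h11 : ∏ x ∈ Z, exp ((n x : ℂ) * log (w - x)) = ∏ x ∈ Z, (w - (x : ℂ)) ^ (n x) :=
        Finset.prod_congr rfl fun x hx => by
          rw [Complex.exp_int_mul, Complex.exp_log (h10 x hx)]
      rw [h11]
      have h12 : ∏ x ∈ Z, (w - (x : ℂ)) ^ (n x) ≠ 0 :=
        Finset.prod_ne_zero_iff.2 fun x hx => zpow_ne_zero _ (h10 x hx)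
      have h13 : w ^ m ≠ 0 := zpow_ne_zero _ h9
      rw [zpow_zero, one_mul]
      field_simp)
  set η : ℝ := min (min δ₁ (δ₂ / 2)) 1 with hη
  have hη0 : 0 < η := lt_min (lt_min hδ₁ (by positivity)) one_pos
  set L : ℂ → ℂ := fun w => m * log w + (∑ x ∈ Z, (n x : ℂ) * log (w - x)) + log (Q w) with hL
  set r₀ : ℂ := (∑ x ∈ Z, (n x : ℂ) * (Real.log x - Real.pi * I)) + log (Q 0) with hr₀
  have hQ00 : (Q 0).im = 0 ∧ 0 < (Q 0).re := by
    have := hQr 0 ⟨le_rfl, by norm_num⟩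
    simpa using this
  refine ⟨η, (∑ x ∈ Z, |(n x : ℝ)| * Cx x) + M, L, r₀, ⟨hη0, ?_, ?_, ?_⟩, ?_, ?_, ?_⟩
  · have : 0 ≤ ∑ x ∈ Z, |(n x : ℝ)| * Cx x :=
      Finset.sum_nonneg fun x hx => mul_nonneg (abs_nonneg _) (Cx_nonneg (hZ x hx).1)
    linarith
  · intro w h6 h7 h8 h9
    have h10 : |w.im| ≤ δ₁ := by
      rw [abs_of_neg h9]
      have := (min_le_left (min δ₁ (δ₂ / 2)) 1).trans (min_le_left _ _)
      linarith
    have h11 := (hM w h6.le h7 h10).2
    rw [hL]
    refine DifferentiableAt.add (DifferentiableAt.add ?_ ?_) h11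
    · exact (DifferentiableAt.clog differentiableAt_id (Or.inl h6)).const_mul _
    · refine DifferentiableAt.fun_sum fun x hx => ?_
      refine (DifferentiableAt.clog (by fun_prop) (Or.inr ?_)).const_mul _
      simp
      exact h9.ne
  · intro w h6 h7 h8 h9
    have h10 : |w.im| ≤ δ₁ := by
      rw [abs_of_neg h9]
      have := (min_le_left (min δ₁ (δ₂ / 2)) 1).trans (min_le_left _ _)
      linarith
    have h8' : -1 ≤ w.im := by
      have := min_le_right (min δ₁ (δ₂ / 2)) 1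
      linarith
    have h11 := (hM w h6.le h7 h10).1
    have h12 : L w - m * log w - r₀ = (∑ x ∈ Z, (n x : ℂ) *
        (log (w - x) - (Real.log x - Real.pi * I))) + (log (Q w) - log (Q 0)) := by
      rw [hL, hr₀]
      simp only [mul_sub, Finset.sum_sub_distrib]
      ring
    rw [h12]
    set X := ‖w‖ * (1 + ‖w‖ * |Real.log (-w.im)|) with hX
    have hX1 : ‖w‖ ≤ X := by
      have : 0 ≤ ‖w‖ * (‖w‖ * |Real.log (-w.im)|) := by positivity
      rw [hX]; nlinarith
    have h13 : ‖∑ x ∈ Z, (n x : ℂ) * (log (w - x) - (Real.log x - Real.pi * I))‖ ≤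
        ∑ x ∈ Z, |(n x : ℝ)| * Cx x * X := by
      refine norm_sum_le_of_le _ fun x hx => ?_
      rw [norm_mul, Complex.norm_intCast, mul_assoc]
      exact mul_le_mul_of_nonneg_left (one_zero (hZ x hx).1 (hZ x hx).2 h6 h7 h8' h9)
        (abs_nonneg _)
    rw [← Finset.sum_mul] at h13
    calc ‖_ + (log (Q w) - log (Q 0))‖ ≤ (∑ x ∈ Z, |(n x : ℝ)| * Cx x) * X + M * ‖w‖ :=
          (norm_add_le _ _).trans (add_le_add h13 h11)
      _ ≤ (∑ x ∈ Z, |(n x : ℝ)| * Cx x) * X + M * X := by gcongr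
      _ = _ := by rw [hX]; ring
  · intro w h6 h7 h8
    have h9 : dist w 2 < δ₂ := by
      rw [Complex.dist_eq]
      have e1 : w - 2 = ((w.im : ℝ) : ℂ) * I := by
        apply Complex.ext <;> simp [h6]
      rw [e1, norm_mul, Complex.norm_I, mul_one, Complex.norm_real, Real.norm_eq_abs,
        abs_of_neg h8]
      have := (min_le_left (min δ₁ (δ₂ / 2)) 1).trans (min_le_right _ _)
      linarith
    have h10 := hbr w h9
    rw [hL₀] at h10
    simp only [Int.cast_zero, zero_mul, zero_add] at h10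
    rw [hL]
    simp only
    linear_combination h10
  · have hne0 : Q 0 ≠ 0 := by
      intro h6
      have := hQ00.2
      rw [h6] at this
      simp at this
    rw [htr, hr₀, Complex.exp_add, Complex.exp_sum, Complex.exp_log hne0]
    congr 1
    refine Finset.prod_congr rfl fun x hx => ?_
    have hx0 := (hZ x hx).1
    rw [Complex.exp_int_mul, Complex.exp_sub, Complex.exp_pi_mul_I, ← Complex.ofReal_exp,
      Real.exp_log hx0]
    congr 1
    ring
  · rw [← hN, hr₀, Complex.add_im, (log_im hQ00).1, Complex.im_sum, add_zero]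
    push_cast
    rw [Finset.mul_sum]
    refine Finset.sum_congr rfl fun x hx => ?_
    have : ((n x : ℂ) * (Real.log x - Real.pi * I)).im = -Real.pi * n x := by
      simp
      ring
    rw [this]

end Pool.Agent.W187.UR
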