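import Pool.Agent.W187.UR.Stm

/-! Statements of the parts of the project UR, second half: the rotation by less than a right
angle. -/

set_option autoImplicit false

namespace Pool.Agent.W187.UR

open Complex MeasureTheory Filter Topology Set
open Pool.Agent.W189.ML Pool.Agent.W189.LC

/-- the growth function of a real zero: the derivative is `∫ e^{zu} / Γ(1 + u) du` -/
noncomputable def HH (z : ℂ) : ℂ :=
  ∫ u in Ioi (0 : ℝ), (exp (z * u) * (om u : ℂ) - (Real.exp (-u) : ℂ)) / u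

/-- the derivative of `HH` (Volterra's function of `e^z`) -/
noncomputable def NU (z : ℂ) : ℂ := ∫ u in Ioi (0 : ℝ), exp (z * u) * (om u : ℂ)

/-- no zeros in `(0, 2]`: the law holds for every angle -/
def S_FULL : Prop := ∀ {ι : Type} [Countable ι] (lam c : ι → ℝ) (G : ℂ → ℂ), SData lam c G →
  ∀ γ : ℝ, 0 ≤ γ → ∀ (m : ℤ) (Q : ℂ → ℂ), (∀ x ∈ Icc (0 : ℝ) 2, AnalyticAt ℂ Q (x : ℂ)) →
  (∀ x ∈ Icc (0 : ℝ) 2, Q (x : ℂ) ∈ slitPlane) → (log (Q 2)).im = 0 →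
  (∀ᶠ w in 𝓝 (2 : ℂ), exp (G w - ser lam c w) = w ^ m * Q w) →
  ContinuousAt (ser lam c) 2 →
  ∃ C T₀ : ℝ, ∀ T ≥ T₀, |rmean lam c γ T - m * Real.log T| ≤ C

/-- the contribution of the rightmost zero `x₀` -/
def S_SING : Prop := ∀ {ι : Type} [Countable ι] (lam c : ι → ℝ) (G : ℂ → ℂ), SData lam c G →
  ∀ γ : ℝ, 0 ≤ γ → γ < Real.pi / 2 → ∀ x₁ x₀ : ℝ, 0 ≤ x₁ → x₁ < x₀ → x₀ ≤ 1 →
  ∀ (m : ℤ) (Q : ℂ → ℂ), (∀ x ∈ Icc x₁ 2, AnalyticAt ℂ Q (x : ℂ)) →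
  (∀ x ∈ Icc x₁ 2, Q (x : ℂ) ∈ slitPlane) → (log (Q 2)).im = 0 →
  (∀ᶠ w in 𝓝 (2 : ℂ), exp (G w - ser lam c w) = (w - x₀) ^ m * Q w) →
  ContinuousAt (ser lam c) 2 →
  ∃ C T₀ : ℝ, ∀ T ≥ T₀,
    |rmean lam c γ T - m * (Real.log T + (HH (x₀ * T + γ * I)).re)| ≤
      C * Real.exp (Real.exp (x₁ * T))

/-- `NU z = A e^{e^z} + O(1)` in the strips `|Im z| ≤ γ < π/2`, `A > 0` (in fact `A = 1`) -/
def S_NU : Prop := ∃ A : ℝ, 0 < A ∧ ∀ γ : ℝ, 0 ≤ γ → γ < Real.pi / 2 → ∃ C : ℝ, ∀ x : ℝ, 1 ≤ x →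
  ‖NU (x + γ * I) - A * exp (exp (x + γ * I))‖ ≤ C

/-- `HH` is large infinitely often -/
def S_HH : Prop := ∀ γ : ℝ, 0 ≤ γ → γ < Real.pi / 2 →
  ∃ᶠ x : ℝ in atTop, Real.exp (Real.exp x * Real.cos γ - 2 * x) ≤ (HH (x + γ * I)).re

end Pool.Agent.W187.UR
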