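import Pool.Agent.W187.UR.Np
import Pool.Agent.W187.UR.Stm2
import Pool.Agent.W189.ML.Final2

/-! The rotation by less than a right angle: the law holds only without real zeros. -/

set_option autoImplicit false

namespace Pool.Agent.W187.UR

open MeasureTheory Filter Topology Set Classical
open Pool.Agent.W189.ML Pool.Agent.W263.BSD
open Pool.Agent.W189.LC hiding cf

variable {a b : ℤ} {F : ℂ → ℂ}

/-- from the smooth part to the sum -/
theorem law_of_rmean {m : ℕ} {c : ℝ}
    (h : ∃ C T₀ : ℝ, ∀ T ≥ T₀,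
      |rmean (fun p : ℕ => Real.log p) (cf a b) c T - m * Real.log T| ≤ C) :
    ∃ M : ℝ, ∀ X : ℝ, 3 ≤ X → |rotSum a b c X - m * Real.log (Real.log X)| ≤ M := by
  obtain ⟨C, T₀, hC⟩ := h
  obtain ⟨B₁, hB₁⟩ := rmean_bound a b c T₀
  obtain ⟨B₂, -, hB₂⟩ := rft_bound a b c
  refine ⟨max (C + B₂) (B₁ + B₂ + m * Real.log T₀), fun X hX => ?_⟩
  have he3 : Real.exp 1 < 3 := by
    have := Real.exp_one_lt_d9
    linarith
  have hlog1 : 1 < Real.log X := by
    rw [Real.lt_log_iff_exp_lt (by linarith)]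
    linarith
  rw [rotSum_eq (a := a) (b := b) c (T := Real.log X) (by linarith) rfl]
  have h2 := abs_le.mp (hB₂ (Real.log X) (by linarith))
  by_cases h : T₀ ≤ Real.log X
  · refine le_max_of_le_left ?_
    have h1 := abs_le.mp (hC (Real.log X) h)
    rw [abs_le]
    constructor <;> linarith [h1.1, h1.2, h2.1, h2.2]
  · refine le_max_of_le_right ?_
    push Not at h
    have h1 := hB₁ (Real.log X) (by linarith) h.le
    have h3 : 0 ≤ Real.log (Real.log X) := Real.log_nonneg hlog1.le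
    have h4 : Real.log (Real.log X) ≤ Real.log T₀ := Real.log_le_log (by linarith) h.le
    have h5 : (m : ℝ) * Real.log (Real.log X) ≤ m * Real.log T₀ := by gcongr
    have h6 : 0 ≤ (m : ℝ) * Real.log (Real.log X) := by positivity
    have h7 := abs_le.mp h1
    have h9 : 0 ≤ B₁ := (abs_nonneg _).trans h1
    rw [abs_le]
    constructor <;> linarith [h7.1, h7.2, h2.1, h2.2]

/-- the data near `2` for the factorisation of `exists_Q` -/
theorem near_two (hF : IsLSeries a b F) {x₀ : ℝ} (h1 : x₀ ≤ 1) {m : ℕ} {Q : ℂ → ℂ}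
    (hQf : ∀ w, w ≠ (x₀ : ℂ) → PhiF a b F w = (w - x₀) ^ m * Q w) :
    ∀ᶠ w in 𝓝 (2 : ℂ), Complex.exp (GG (SS a b) (Ap a b) w -
      ser (fun p : ℕ => Real.log p) (fun p => if p ∈ SS a b then cc (Ap a b) p else 0) w) =
      (w - x₀) ^ (m : ℤ) * Q w := by
  have E := eData a b
  have h2x : (2 : ℂ) ≠ (x₀ : ℂ) := by
    have : (2 : ℝ) ≠ x₀ := by linarith
    exact_mod_cast this
  have e1 : {w : ℂ | 1 < w.re} ∈ 𝓝 (2 : ℂ) :=
    (isOpen_lt continuous_const Complex.continuous_re).mem_nhds (by simp)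
  filter_upwards [e1, isOpen_ne.mem_nhds h2x] with w hw hw2
  rw [exp_eq E hw (PhiF_hasProd hF hw), hQf w hw2, zpow_natCast]

/-- the law for small angles without real zeros -/
theorem low_of_nonzero (hfull : S_FULL) (hF : IsLSeries a b F) {m : ℕ}
    (hm : analyticOrderAt F 1 = m) {c : ℝ} (hc : 0 ≤ c) (hnz : ∀ σ : ℝ, 1 < σ → F σ ≠ 0) :
    ∃ M : ℝ, ∀ X : ℝ, 3 ≤ X → |rotSum a b c X - m * Real.log (Real.log X)| ≤ M := by
  refine law_of_rmean ?_
  have E := eData a b
  obtain ⟨Q, hQa, hQf, x₁, hx1, hx2, -, hx4⟩ := exists_Q hF le_rfl zero_le_one (m := m)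
    (by rw [add_zero, Complex.ofReal_one]; exact hm) (fun σ hσ => hnz σ (by linarith))
  have hx10 : x₁ = 0 := le_antisymm hx2 hx1
  subst hx10
  have h5 := near_two hF (x₀ := 0) zero_le_one hQf
  rw [Complex.ofReal_zero] at h5
  simp only [sub_zero] at h5
  have h6 := hfull (fun p : ℕ => Real.log p) _ _ (sdata E) c hc (m : ℤ) Q (fun x _ => hQa _)
    (fun x hx => Or.inl (hx4 x hx).2) (by
      obtain ⟨h3, h4⟩ := hx4 2 ⟨by norm_num, le_rfl⟩
      have h5 : Q 2 = (((Q 2).re : ℝ) : ℂ) := by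
        apply Complex.ext
        · simp
        · simpa using h3
      rw [h5, ← Complex.ofReal_log (by simpa using h4.le), Complex.ofReal_im]) h5
    (ser_cont_two E)
  obtain ⟨C, T₀, h7⟩ := h6
  refine ⟨C, T₀, fun T hT => ?_⟩
  have h8 := h7 T hT
  have h9 : (fun p : ℕ => if p ∈ SS a b then cc (Ap a b) p else 0) = cf a b := rfl
  rw [h9] at h8
  simpa using h8

/-- comparison of the double exponentials -/
theorem gap3 {y x₀ κ D : ℝ} (hy : y < x₀) (hx : 0 < x₀) (hκ : 0 < κ) :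
    ∀ᶠ T : ℝ in atTop, Real.exp (y * T) + D + D * T ≤ κ * Real.exp (x₀ * T) - 2 * (x₀ * T) := by
  have e0 : Tendsto (fun T : ℝ => (x₀ - y) * T) atTop atTop :=
    tendsto_id.const_mul_atTop (by linarith)
  have e1 := (Real.tendsto_exp_atTop.comp e0).eventually (eventually_ge_atTop (2 / κ))
  have e2 : Tendsto (fun T : ℝ => x₀ * T) atTop atTop := tendsto_id.const_mul_atTop hx
  have e3 := e2.eventually (lin_le_exp (2 / κ * ((2 * |D| + 2 * x₀) / x₀)))
  filter_upwards [e1, e3, eventually_ge_atTop (1 : ℝ)] with T h1 h2 h3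
  simp only [Function.comp_apply] at h1
  have h4 : Real.exp (y * T) ≤ κ / 2 * Real.exp (x₀ * T) := by
    have h5 : Real.exp (x₀ * T) = Real.exp (y * T) * Real.exp ((x₀ - y) * T) := by
      rw [← Real.exp_add]; congr 1; ring
    rw [h5]
    have h6 : 1 ≤ κ / 2 * Real.exp ((x₀ - y) * T) := by
      rw [div_le_iff₀ hκ] at h1
      linarith
    have h7 := Real.exp_pos (y * T)
    calc Real.exp (y * T) = Real.exp (y * T) * 1 := (mul_one _).symm
      _ ≤ Real.exp (y * T) * (κ / 2 * Real.exp ((x₀ - y) * T)) := by gcongr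
      _ = _ := by ring
  have h5 : 2 / κ * ((2 * |D| + 2 * x₀) / x₀) * (x₀ * T) = 2 / κ * ((2 * |D| + 2 * x₀) * T) := by
    field_simp
  rw [h5] at h2
  have h6 : (2 * |D| + 2 * x₀) * T ≤ κ / 2 * Real.exp (x₀ * T) := by
    have h7 : 2 / κ * ((2 * |D| + 2 * x₀) * T) * (κ / 2) = (2 * |D| + 2 * x₀) * T := by
      field_simp
    have h8 := mul_le_mul_of_nonneg_right h2 (by positivity : 0 ≤ κ / 2)
    rw [h7] at h8
    linarith
  have h7 : D + D * T ≤ 2 * |D| * T := by
    have h8 := le_abs_self D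
    have h9 := abs_nonneg D
    nlinarith
  nlinarith

/-- the growth of the smooth part -/
theorem rmean_large (hsing : S_SING) (hhh : S_HH) (hF : IsLSeries a b F) {c : ℝ} (hc : 0 ≤ c)
    (hc2 : c < Real.pi / 2) {x₀ : ℝ} (h0 : 0 < x₀) (h1 : x₀ ≤ 1)
    (hz : F ((1 + x₀ : ℝ) : ℂ) = 0) (hnz : ∀ σ : ℝ, 1 + x₀ < σ → F σ ≠ 0) (y : ℝ)
    (hy : y < x₀) (D : ℝ) :
    ∃ᶠ T : ℝ in atTop, Real.exp (Real.exp (y * T)) + D + D * T ≤
      rmean (fun p : ℕ => Real.log p) (cf a b) c T := by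
  have E := eData a b
  obtain ⟨m, hm⟩ := order_finite_all hF ((1 + x₀ : ℝ) : ℂ)
  obtain ⟨Q, hQa, hQf, x₁, hx1, hx2, hx3, hx4⟩ := exists_Q hF h0.le h1 hm hnz
  have hx3' := hx3 h0
  have hm1 : 1 ≤ m := by
    rw [Nat.one_le_iff_ne_zero]
    intro h
    rw [h] at hm
    have : AnalyticAt ℂ F ((1 + x₀ : ℝ) : ℂ) := hF.1.analyticAt _
    exact (this.analyticOrderAt_eq_zero.1 (by simpa using hm)) hz
  have hm1' : (1 : ℝ) ≤ m := by exact_mod_cast hm1
  obtain ⟨C, T₀, hC⟩ := hsing (fun p : ℕ => Real.log p) _ _ (sdata E) c hc hc2 x₁ x₀ hx1 hx3' h1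
    (m : ℤ) Q (fun x _ => hQa _) (fun x hx => Or.inl (hx4 x hx).2) (by
      obtain ⟨h3, h4⟩ := hx4 2 ⟨by linarith, le_rfl⟩
      have h5 : Q 2 = (((Q 2).re : ℝ) : ℂ) := by
        apply Complex.ext
        · simp
        · simpa using h3
      rw [h5, ← Complex.ofReal_log (by simpa using h4.le), Complex.ofReal_im])
    (near_two hF h1 hQf) (ser_cont_two E)
  have h9 : (fun p : ℕ => if p ∈ SS a b then cc (Ap a b) p else 0) = cf a b := rfl
  rw [h9] at hC
  have hκ : 0 < Real.cos c := Real.cos_pos_of_mem_Ioo ⟨by linarith [Real.pi_pos], hc2⟩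
  -- the frequently large values
  have hfr : ∃ᶠ T : ℝ in atTop, Real.exp (Real.exp (x₀ * T) * Real.cos c - 2 * (x₀ * T)) ≤
      (HH (x₀ * T + c * Complex.I)).re := by
    have e1 : Tendsto (fun x : ℝ => x / x₀) atTop atTop := tendsto_id.atTop_div_const h0
    refine e1.frequently ?_
    refine (hhh c hc hc2).mono fun x hx => ?_
    have e2 : x₀ * (x / x₀) = x := by field_simp
    have e3 : (x₀ : ℂ) * ((x / x₀ : ℝ) : ℂ) = (x : ℂ) := by
      rw [← Complex.ofReal_mul, e2]
    rw [e2, e3]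
    exact hx
  set y' : ℝ := max y x₁ with hy'
  have hy1 : y' < x₀ := max_lt hy hx3'
  have hg := gap3 (D := |C| + |D| + 2) hy1 h0 hκ
  refine (hfr.and_eventually (hg.and ((eventually_ge_atTop T₀).and
    (eventually_ge_atTop (1 : ℝ))))).mono ?_
  rintro T ⟨h2, h3, h4, h5⟩
  have h6 := abs_le.mp (hC T h4)
  have hlogT0 : 0 ≤ Real.log T := Real.log_nonneg h5
  set W : ℝ := Real.exp (y' * T) with hW
  set R : ℝ := (HH (x₀ * T + c * Complex.I)).re with hR
  have h7 : Real.exp (W + (|C| + |D| + 2) + (|C| + |D| + 2) * T) ≤ R := by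
    refine le_trans (Real.exp_le_exp.2 ?_) h2
    linarith
  have hR0 : 0 ≤ R := (Real.exp_pos _).le.trans h7
  have h8 : Real.exp (x₁ * T) ≤ W := Real.exp_le_exp.2
    (mul_le_mul_of_nonneg_right (le_max_right _ _) (by linarith))
  have h10 : Real.exp (y * T) ≤ W := Real.exp_le_exp.2
    (mul_le_mul_of_nonneg_right (le_max_left _ _) (by linarith))
  have h11 : Real.exp (Real.exp (x₁ * T)) ≤ Real.exp W := Real.exp_le_exp.2 h8
  have h12 : Real.exp (Real.exp (y * T)) ≤ Real.exp W := Real.exp_le_exp.2 h10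
  -- `R ≥ e^W (1 + |C| + |D| + |D| T)`
  have h13 : Real.exp W * (1 + |C| + |D| + |D| * T) ≤ R := by
    refine le_trans ?_ h7
    have h13' : W + (|C| + |D| + 2) + (|C| + |D| + 2) * T =
        W + ((|C| + |D| + 2) + (|C| + |D| + 2) * T) := by ring
    rw [h13', Real.exp_add]
    refine mul_le_mul_of_nonneg_left ?_ (Real.exp_pos _).le
    have h14 := Real.add_one_le_exp ((|C| + |D| + 2) + (|C| + |D| + 2) * T)
    have h15 := abs_nonneg C
    have h16 := abs_nonneg D
    nlinarith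
  have h14 : (m : ℝ) * (Real.log T + R) - C * Real.exp (Real.exp (x₁ * T)) ≤
      rmean (fun p : ℕ => Real.log p) (cf a b) c T := by
    have := h6.1
    push_cast at this
    linarith
  have h15 : C * Real.exp (Real.exp (x₁ * T)) ≤ |C| * Real.exp W := by
    calc C * Real.exp (Real.exp (x₁ * T)) ≤ |C| * Real.exp (Real.exp (x₁ * T)) := by
          gcongr; exact le_abs_self C
      _ ≤ |C| * Real.exp W := by gcongr
  have h16 : R ≤ (m : ℝ) * (Real.log T + R) := by nlinarith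
  have h17 : D + D * T ≤ Real.exp W * (|D| + |D| * T) := by
    have h18 : D + D * T ≤ |D| + |D| * T := by
      have := le_abs_self D
      nlinarith
    have h19 : 1 ≤ Real.exp W := Real.one_le_exp (Real.exp_pos _).le
    have h20 : 0 ≤ |D| + |D| * T := by positivity
    nlinarith
  have h18 : Real.exp W * (1 + |C| + |D| + |D| * T) =
      Real.exp W + |C| * Real.exp W + Real.exp W * (|D| + |D| * T) := by ring
  linarith

/-- the growth of the sum -/
theorem rot_large (hsing : S_SING) (hhh : S_HH) (hF : IsLSeries a b F) {c : ℝ} (hc : 0 ≤ c)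
    (hc2 : c < Real.pi / 2) {β : ℝ} (hβ : 1 < β) (hz : F β = 0) (y : ℝ) (hy : y < β - 1) :
    ∃ᶠ X : ℝ in atTop, Real.exp (X ^ y) ≤ rotSum a b c X - Real.log X := by
  obtain ⟨x₀, h0, h1, hnz, hzz⟩ := exists_rightmost hF
  have hβx : β ≤ 1 + x₀ := by
    by_contra h
    push Not at h
    exact hnz β h hz
  have hx0 : 0 < x₀ := by linarith
  have hzz' : F ((1 + x₀ : ℝ) : ℂ) = 0 := by
    rcases hzz with h | h
    · exact absurd h hx0.ne'
    · exact h
  obtain ⟨B₂, hB0, hB₂⟩ := rft_bound a b c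
  have h2 := rmean_large hsing hhh hF hc hc2 hx0 h1 hzz' hnz y (by linarith) (B₂ + 1)
  refine Real.tendsto_exp_atTop.frequently ?_
  refine (h2.and_eventually (eventually_gt_atTop (0 : ℝ))).mono ?_
  rintro T ⟨h3, h4⟩
  have h5 := (abs_le.mp (hB₂ T h4)).1
  rw [rotSum_eq (a := a) (b := b) c h4 (Real.log_exp T), Real.log_exp]
  have h6 : Real.exp T ^ y = Real.exp (y * T) := by
    rw [← Real.exp_mul]
    congr 1
    ring
  rw [h6]
  nlinarith

/-- **small angles**: the law is equivalent to the absence of real zeros -/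
theorem low_iff (hfull : S_FULL) (hsing : S_SING) (hhh : S_HH) (hF : IsLSeries a b F) {m : ℕ}
    (hm : analyticOrderAt F 1 = m) {c : ℝ} (hc : 0 ≤ c) (hc2 : c < Real.pi / 2) :
    (∃ M : ℝ, ∀ X : ℝ, 3 ≤ X → |rotSum a b c X - m * Real.log (Real.log X)| ≤ M) ↔
      ∀ σ : ℝ, 1 < σ → F σ ≠ 0 := by
  constructor
  · rintro ⟨M, hM⟩ β hβ hz
    have h1 := rot_large hsing hhh hF hc hc2 hβ hz 0 (by linarith)
    have h2 : ∀ᶠ X : ℝ in atTop, M + m * Real.log (Real.log X) < Real.log X := by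
      have e1 : ∀ᶠ T : ℝ in atTop, M + m * Real.log T < T := by
        have e3 : (fun T : ℝ => (m : ℝ) * Real.log T) =o[atTop] (fun T : ℝ => T) :=
          Real.isLittleO_log_id_atTop.const_mul_left _
        have e4 := e3.def (by norm_num : (0 : ℝ) < 1 / 2)
        filter_upwards [e4, eventually_gt_atTop (2 * M), eventually_gt_atTop (0 : ℝ)]
          with T h3 h4 h5
        rw [Real.norm_eq_abs, Real.norm_eq_abs, abs_of_pos h5] at h3
        have h6 := le_abs_self ((m : ℝ) * Real.log T)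
        linarith
      exact Real.tendsto_log_atTop.eventually e1
    obtain ⟨X, h3, h4, h5⟩ := (h1.and_eventually (h2.and (eventually_ge_atTop (3 : ℝ)))).exists
    have h6 := (abs_le.mp (hM X h5)).2
    have h7 := Real.exp_pos (X ^ (0 : ℝ))
    linarith
  · exact low_of_nonzero hfull hF hm hc

end Pool.Agent.W187.UR
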