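import Pool.Agent.W187.UR.Rot
import Pool.Agent.W189.LC.Main

/-! Statements of the parts of the project UR (rotated Mittag-Leffler means). -/

set_option autoImplicit false

namespace Pool.Agent.W187.UR

open Complex MeasureTheory Filter Topology Set
open Pool.Agent.W189.ML Pool.Agent.W189.LC

/-- `κ_γ = ∫_0^∞ (e^{-t} - cos (γ t) / Γ(1 + t)) dt / t` -/
noncomputable def kapr (γ : ℝ) : ℝ :=
  ∫ t in Ioi (0 : ℝ), (Real.exp (-t) - Real.cos (γ * t) * (Real.Gamma (1 + t))⁻¹) / t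

/-- the rotated logarithm -/
def S_KAP : Prop := ∀ γ : ℝ, (J 1 (fun z => log (z - γ * I))).re = kapr γ

/-- `L` is a branch of the logarithm on the strip below the segment `[0, 2]`, which looks like
`m log w + r₀` at `0`. -/
structure Bel (m : ℤ) (r₀ : ℂ) (η B : ℝ) (L : ℂ → ℂ) : Prop where
  hη : 0 < η
  hB : 0 ≤ B
  diff : ∀ w : ℂ, 0 < w.re → w.re ≤ 2 → -η ≤ w.im → w.im < 0 → DifferentiableAt ℂ L w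
  bound : ∀ w : ℂ, 0 < w.re → w.re ≤ 2 → -η ≤ w.im → w.im < 0 →
    ‖L w - m * log w - r₀‖ ≤ B * ‖w‖ * (1 + ‖w‖ * |Real.log (-w.im)|)

/-- existence of the logarithm below the segment -/
def S_BEL : Prop := ∀ Φ g : ℂ → ℂ,
  (∀ x ∈ Icc (0 : ℝ) 2, MeromorphicAt Φ (x : ℂ)) →
  (∀ x ∈ Icc (0 : ℝ) 2, meromorphicOrderAt Φ (x : ℂ) ≠ ⊤) →
  (∀ w : ℂ, 1 < w.re → AnalyticAt ℂ g w) →
  (∀ w : ℂ, 1 < w.re → Φ w = exp (g w)) →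
  (∀ x : ℝ, 1 < x → (g x).im = 0) →
  ∀ m : ℤ, meromorphicOrderAt Φ 0 = m →
  ∃ (η B : ℝ) (L : ℂ → ℂ) (r₀ : ℂ), Bel m r₀ η B L ∧
    (∀ w : ℂ, w.re = 2 → -η ≤ w.im → w.im < 0 → g w = L w) ∧
    r₀.re = Real.log ‖meromorphicTrailingCoeffAt Φ 0‖

/-- splitting off all the zeros and poles on the segment -/
def S_FAC : Prop := ∀ Φ g : ℂ → ℂ,
  (∀ x ∈ Icc (0 : ℝ) 2, MeromorphicAt Φ (x : ℂ)) →
  (∀ x ∈ Icc (0 : ℝ) 2, meromorphicOrderAt Φ (x : ℂ) ≠ ⊤) →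
  (∀ w : ℂ, 1 < w.re → AnalyticAt ℂ g w) →
  (∀ w : ℂ, 1 < w.re → Φ w = exp (g w)) →
  (∀ x : ℝ, 1 < x → (g x).im = 0) →
  ∀ m : ℤ, meromorphicOrderAt Φ 0 = m →
  ∃ (Z : Finset ℝ) (n : ℝ → ℤ) (Q : ℂ → ℂ), (∀ x ∈ Z, 0 < x ∧ x ≤ 1) ∧
    (∀ x ∈ Icc (0 : ℝ) 2, AnalyticAt ℂ Q (x : ℂ)) ∧
    (∀ x ∈ Icc (0 : ℝ) 2, (Q (x : ℂ)).im = 0 ∧ 0 < (Q (x : ℂ)).re) ∧
    (∀ᶠ w in 𝓝 (2 : ℂ), exp (g w) = w ^ m * (∏ x ∈ Z, (w - (x : ℂ)) ^ (n x)) * Q w) ∧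
    Real.log ‖meromorphicTrailingCoeffAt Φ 0‖ = (∑ x ∈ Z, n x * Real.log x) +
      Real.log (Q 0).re

/-- the refined asymptotics of the rotated means -/
def S_REF : Prop := ∀ {ι : Type} [Countable ι] (lam c : ι → ℝ), SData lam c (fun _ => 0) →
  ∀ γ : ℝ, Real.pi / 2 < γ → ∀ (m : ℤ) (r₀ : ℂ) (L : ℂ → ℂ) (η B : ℝ), Bel m r₀ η B L →
  (∀ w : ℂ, w.re = 2 → -η ≤ w.im → w.im < 0 → -ser lam c w = L w) →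
  ∃ C T₀ : ℝ, 0 ≤ C ∧ 1 ≤ T₀ ∧ ∀ T ≥ T₀,
    |rmean lam c γ T - (m * Real.log T - m * (J 1 (fun z => log (z - γ * I))).re - r₀.re)| ≤ C / T

end Pool.Agent.W187.UR
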